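import Pool.Agent.KDD.Stmts

set_option autoImplicit false

/-!
# KDD, row NSW: the positions have small denominators
-/

namespace Pool.Agent.KDD.H19

open Polynomial NumberField H58Q Pool.Agent.SZT Pool.Agent.SZT.B Pool.Agent.KDT Pool.Agent.KDS

/-- arithmetic core: `m = log ρ / log r` has a small denominator -/
theorem core (c r ρ : ℝ) (n m₁ k k' : ℕ) (l l' : ℤ) (hc0 : 0 < c) (hc1 : c < 1) (hr0 : 0 < r)
    (hr1 : r < 1) (hρ : 0 < ρ) (hk : 0 < k) (hk25 : k ≤ 25) (hk' : 0 < k') (hk10 : k' ≤ 10)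
    (h1 : r ^ k = c ^ (2 * l)) (h2 : ρ ^ k' = c ^ l') (h3 : c ^ n ≤ r)
    (hdiv : ∀ q, 0 < q → q ≤ 250 * n → q ∣ m₁) :
    ∃ j : ℤ, (m₁ : ℝ) * (Real.log ρ / Real.log r) = j := by
  have hlc : Real.log c < 0 := Real.log_neg hc0 hc1
  have hlr : Real.log r < 0 := Real.log_neg hr0 hr1
  have e1 : (k : ℝ) * Real.log r = (2 * (l : ℝ)) * Real.log c := by
    have := congrArg Real.log h1
    rw [Real.log_pow, Real.log_zpow] at this
    push_cast at this
    exact this
  have e2 : (k' : ℝ) * Real.log ρ = (l' : ℝ) * Real.log c := by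
    have := congrArg Real.log h2
    rw [Real.log_pow, Real.log_zpow] at this
    exact this
  have hkR : (0 : ℝ) < k := by exact_mod_cast hk
  have hkR' : (0 : ℝ) < k' := by exact_mod_cast hk'
  have hl : 0 < l := by
    by_contra hcon
    have hl0 : (l : ℝ) ≤ 0 := by exact_mod_cast not_lt.1 hcon
    have : (k : ℝ) * Real.log r < 0 := mul_neg_of_pos_of_neg hkR hlr
    nlinarith
  have hlR : (0 : ℝ) < l := by exact_mod_cast hl
  have e3 : (n : ℝ) * Real.log c ≤ Real.log r := by
    have := Real.log_le_log (pow_pos hc0 n) h3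
    rwa [Real.log_pow] at this
  have hb : (2 * (l : ℝ)) ≤ n * k := by
    by_contra hcon
    push Not at hcon
    have : (k : ℝ) * (n * Real.log c) ≤ (2 * (l : ℝ)) * Real.log c := by
      rw [← e1]
      exact mul_le_mul_of_nonneg_left e3 hkR.le
    nlinarith
  obtain ⟨L0, rfl⟩ := Int.eq_ofNat_of_zero_le hl.le
  have hL0 : 0 < L0 := by exact_mod_cast hl
  have hbN : 2 * L0 ≤ n * k := by exact_mod_cast hb
  have hq : (2 * L0) * k' ≤ 250 * n := by
    calc (2 * L0) * k' ≤ (n * k) * 10 := Nat.mul_le_mul hbN hk10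
      _ ≤ (n * 25) * 10 := by
        apply Nat.mul_le_mul_right
        exact Nat.mul_le_mul_left _ hk25
      _ = 250 * n := by ring
  obtain ⟨w, hw⟩ := hdiv ((2 * L0) * k') (by positivity) hq
  refine ⟨(w : ℤ) * (l' * k), ?_⟩
  rw [hw]
  push_cast
  have hlr' : Real.log r ≠ 0 := hlr.ne
  push_cast at e1
  have key : (2 * (L0 : ℝ)) * k' * (Real.log ρ / Real.log r) = l' * k := by
    rw [mul_div_assoc', div_eq_iff hlr']
    have hlc' : Real.log c ≠ 0 := hlc.ne
    calc 2 * (L0 : ℝ) * k' * Real.log ρ = 2 * (L0 : ℝ) * ((k' : ℝ) * Real.log ρ) := by ring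
      _ = 2 * (L0 : ℝ) * (l' * Real.log c) := by rw [e2]
      _ = l' * (2 * (L0 : ℝ) * Real.log c) := by ring
      _ = l' * (k * Real.log r) := by rw [← e1]
      _ = l' * k * Real.log r := by ring
  calc 2 * (L0 : ℝ) * k' * w * (Real.log ρ / Real.log r)
      = w * (2 * (L0 : ℝ) * k' * (Real.log ρ / Real.log r)) := by ring
    _ = w * (l' * k) := by rw [key]

theorem nsw (hT : TndStatement) (hC : TchStatement) (hV : VgrStatement) : NswStatement := by
  intro K L _ _ _ _ φ f A B θ s c n m₁ hc0 hc1 hval hTw hSq hn hcn hdiv hMum hA2 hAs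
  classical
  obtain ⟨⟨hη0, hη1, hctr⟩, -, -, -, hfm, hfd⟩ := hT L (f.map φ) θ hTw
  obtain ⟨hC1, hC2, -⟩ := hC L (f.map φ) θ s hTw hSq
  have hf0 : f ≠ 0 := by
    intro h
    rw [h, Polynomial.map_zero] at hfm
    exact hfm.ne_zero rfl
  have hfd' : f.natDegree = 5 := by
    rw [Polynomial.natDegree_map] at hfd
    exact hfd
  have hroot : ∀ i, (f.map φ).IsRoot (θ i) := by
    intro i
    rw [Polynomial.IsRoot.def, hTw.fac, Polynomial.eval_prod]
    apply Finset.prod_eq_zero (Finset.mem_univ i)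
    simp
  have h2 : ‖(2 : L)‖ = 1 := hTw.two
  set r : ℝ := ‖SZT.B.eta θ‖ with hrdef
  have hr0 : 0 < r := norm_pos_iff.2 hη0
  have hr : r = ‖θ 0 - θ 1‖ ^ 2 := by
    rw [hrdef, SZT.B.eta, norm_pow, norm_div, h2, div_one]
  have hne : θ 0 ≠ θ 1 := fun h => by
    have := hTw.inj h
    exact absurd this (by decide)
  obtain ⟨k, l, hk0, hk25, hkl⟩ := hV K L φ c f f (θ 0) (θ 1) hc0 hc1 hval hf0 hf0
    (hroot 0) (hroot 1) hne
  rw [hfd'] at hk25
  have h1 : r ^ k = c ^ (2 * l) := by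
    rw [hr, ← pow_mul, mul_comm 2 k, pow_mul, hkl, ← zpow_natCast, ← zpow_mul, mul_comm]
    rfl
  have h3 : c ^ n ≤ r := by rw [hr]; exact hcn
  have hlr : Real.log r < 0 := Real.log_neg hr0 hη1
  -- every element
  have hel : ∀ X ∈ nz θ s (A.map φ) (B.map φ), ∃ j : ℤ, (m₁ : ℝ) * pos r X = j := by
    intro X hX
    rw [nz, Multiset.mem_map] at hX
    obtain ⟨a, ha, rfl⟩ := hX
    rw [Multiset.mem_filter] at ha
    obtain ⟨haR, haN⟩ := ha
    have hAm : (A.map φ).IsRoot a := Polynomial.isRoot_of_mem_roots haR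
    set y : L := (B.map φ).eval a with hy
    have hyy : y ^ 2 = (f.map φ).eval a := by
      obtain ⟨D, hD⟩ := hMum.dvd
      have h := congrArg (fun p : K[X] => (p.map φ).eval a) hD
      simp only [Polynomial.map_sub, Polynomial.map_pow, Polynomial.map_mul,
        Polynomial.eval_sub, Polynomial.eval_pow, Polynomial.eval_mul] at h
      rw [hAm, zero_mul] at h
      exact sub_eq_zero.1 h
    obtain ⟨hAnn, hxx, hyv, -⟩ := hC2 a y hyy haN
    set X : L := crd θ s a y with hXdef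
    obtain ⟨hX1, -, -, -, -, -, -, hpos, -, -⟩ := hC1 X hAnn
    have hXr : r < ‖X‖ := hAnn.1
    have hX1' : ‖X‖ < 1 := hAnn.2
    have hX0 : 0 < ‖X‖ := hr0.trans hXr
    have hXne : X ≠ 0 := norm_pos_iff.1 hX0
    have hZ : ‖SZT.B.eta θ / X‖ = r / ‖X‖ := by rw [norm_div]
    have hposX : pos r X = Real.log ‖X‖ / Real.log r := rfl
    have hposZ : pos r (SZT.B.eta θ / X) = 1 - pos r X := hpos
    by_cases hcase : ‖X‖ = ‖SZT.B.eta θ / X‖
    · -- position 1/2
      have hsq : ‖X‖ ^ 2 = r := by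
        rw [hZ, eq_div_iff hX0.ne'] at hcase
        rw [sq]; exact hcase
      have hhalf : pos r X = 1 / 2 := by
        rw [hposX, div_eq_iff hlr.ne, ← hsq, Real.log_pow]
        push_cast
        ring
      obtain ⟨w, hw⟩ := hdiv 2 (by norm_num) (by omega)
      refine ⟨w, ?_⟩
      rw [hhalf, hw]
      push_cast
      ring
    · -- unequal norms
      have hxa : a - ctr θ = (X + SZT.B.eta θ / X) / 2 := by
        have := hxx
        rw [xx] at this
        rw [← this]
        ring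
      have hmax : ‖X + SZT.B.eta θ / X‖ = max ‖X‖ ‖SZT.B.eta θ / X‖ :=
        IsUltrametricDist.norm_add_eq_max_of_norm_ne_norm hcase
      have hzn : ‖a - ctr θ‖ = max ‖X‖ ‖SZT.B.eta θ / X‖ := by
        rw [hxa, norm_div, h2, div_one, hmax]
      set ρ : ℝ := max ‖X‖ ‖SZT.B.eta θ / X‖ with hρdef
      have hprod : ‖X‖ * ‖SZT.B.eta θ / X‖ = r := by
        rw [hZ]
        field_simp
      have hZ0 : 0 < ‖SZT.B.eta θ / X‖ := by rw [hZ]; positivity
      have hρ0 : 0 < ρ := lt_of_lt_of_le hX0 (le_max_left _ _)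
      have hρr : r < ρ ^ 2 := by
        rw [← hprod]
        rcases lt_or_gt_of_ne hcase with h | h
        · rw [hρdef, max_eq_right h.le, sq]
          exact mul_lt_mul_of_pos_right h hZ0
        · rw [hρdef, max_eq_left h.le, sq]
          exact mul_lt_mul_of_pos_left h hX0
      have hd : ‖(θ 0 - θ 1) / 2‖ < ρ := by
        have : ‖(θ 0 - θ 1) / 2‖ ^ 2 < ρ ^ 2 := by
          rw [norm_div, h2, div_one, ← hr]; exact hρr
        exact lt_of_pow_lt_pow_left₀ 2 hρ0.le this
      have haθ : ‖a - θ 0‖ = ρ := by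
        have e : a - θ 0 = (a - ctr θ) + -((θ 0 - θ 1) / 2) := by
          rw [ctr]
          have h2ne : (2 : L) ≠ 0 := by
            intro h; rw [h, norm_zero] at h2; exact zero_ne_one h2
          field_simp
          ring
        rw [e, IsUltrametricDist.norm_add_eq_max_of_norm_ne_norm, norm_neg, hzn,
          max_eq_left hd.le]
        rw [norm_neg, hzn]
        exact hd.ne'
      have hane : a ≠ θ 0 := by
        intro h
        rw [h, sub_self, norm_zero] at haθ
        exact hρ0.ne haθ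
      have hA0 : A ≠ 0 := hMum.monic.ne_zero
      obtain ⟨k', l', hk'0, hk'10, hk'l⟩ := hV K L φ c A f a (θ 0) hc0 hc1 hval hA0 hf0
        hAm (hroot 0) hane
      rw [hfd'] at hk'10
      have hk'10' : k' ≤ 10 := by
        calc k' ≤ A.natDegree * 5 := hk'10
          _ ≤ 2 * 5 := Nat.mul_le_mul_right _ hA2
          _ = 10 := by norm_num
      rw [haθ] at hk'l
      obtain ⟨j, hj⟩ := core c r ρ n m₁ k k' l l' hc0 hc1 hr0 hη1 hρ0 hk0 (by omega) hk'0
        hk'10' h1 hk'l h3 hdiv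
      rcases lt_or_gt_of_ne hcase with h | h
      · -- ρ = ‖η/X‖
        have hρe : ρ = ‖SZT.B.eta θ / X‖ := by rw [hρdef, max_eq_right h.le]
        refine ⟨m₁ - j, ?_⟩
        have : pos r (SZT.B.eta θ / X) = Real.log ρ / Real.log r := by rw [hρe]; rfl
        rw [hposZ] at this
        push_cast
        rw [← hj, ← this]
        ring
      · have hρe : ρ = ‖X‖ := by rw [hρdef, max_eq_left h.le]
        refine ⟨j, ?_⟩
        rw [← hj, hρe]
        rfl
  -- the sum
  rw [ss]
  have hsum : ∀ (M : Multiset L), (∀ X ∈ M, ∃ j : ℤ, (m₁ : ℝ) * pos r X = j) →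
      ∃ j : ℤ, (m₁ : ℝ) * (M.map (pos r)).sum = j := by
    intro M
    induction M using Multiset.induction_on with
    | empty => intro _; exact ⟨0, by simp⟩
    | cons X M ih =>
      intro h
      obtain ⟨j₁, hj₁⟩ := h X (Multiset.mem_cons_self X M)
      obtain ⟨j₂, hj₂⟩ := ih fun Y hY => h Y (Multiset.mem_cons_of_mem hY)
      refine ⟨j₁ + j₂, ?_⟩
      rw [Multiset.map_cons, Multiset.sum_cons, mul_add, hj₁, hj₂]
      push_cast
      ring
  exact hsum _ hel

end Pool.Agent.KDD.H19
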